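import Pool.Agent.MP_c1891a_nt.G43.SpecA

/-
The field of asymptotic numbers.
-/

namespace Pool.Agent.MP_c1891a_nt.G43

open Filter Topology

/-- the quotient of a ring by the kernel of a multiplicative ultrametric seminorm. -/
theorem UF_field (M : Type) [CommRing M] (v : M → ℝ) (h0 : ∀ x, 0 ≤ v x)
    (hmul : ∀ x y, v (x * y) = v x * v y) (hadd : ∀ x y, v (x + y) ≤ max (v x) (v y))
    (hz : v 0 = 0) (hinv : ∀ x, v x ≠ 0 → ∃ y, v (1 - y * x) = 0) (hnt : ∃ x, 1 < v x) :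
    ∃ (K : Type) (_ : NontriviallyNormedField K) (_ : IsUltrametricDist K) (cl : M →+* K),
      Function.Surjective cl ∧ ∀ x, ‖cl x‖ = v x := by
  obtain ⟨z, hz1⟩ := hnt
  have h1 : v 1 = 1 := mul_left_cancel₀ (zero_lt_one.trans hz1).ne' (by
    rw [← hmul, mul_one, mul_one])
  have hn : v (-1) = 1 := by
    have := hmul (-1) (-1)
    rw [neg_mul_neg, one_mul, h1] at this
    nlinarith [h0 (-1)]
  let J : Ideal M :=
    { carrier := {x | v x = 0}
      add_mem' := fun {x y} hx hy => le_antisymm ((hadd x y).trans (max_le hx.le hy.le)) (h0 _)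
      zero_mem' := hz
      smul_mem' := fun c x hx => by
        change v (c * x) = 0
        rw [hmul, show v x = 0 from hx, mul_zero] }
  have hJ : J.IsMaximal := Ideal.isMaximal_iff.2 ⟨fun h => one_ne_zero (h1.symm.trans h),
    fun I x hI hx hxI => by
      obtain ⟨y, hy⟩ := hinv x hx
      simpa using I.add_mem (hI hy) (I.mul_mem_left y hxI)⟩
  have hle : ∀ x y, x - y ∈ J → v x ≤ v y := fun x y h => by
    have := hadd (x - y) y
    rw [sub_add_cancel, show v (x - y) = 0 from h] at this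
    exact this.trans (max_le (h0 y) le_rfl)
  let w : M ⧸ J → ℝ := Quotient.lift v fun x y h => by
    have h' : x - y ∈ J := (Submodule.quotientRel_def _).1 h
    exact le_antisymm (hle x y h') (hle y x (by simpa using J.neg_mem h'))
  have hw : ∀ x, w (Ideal.Quotient.mk J x) = v x := fun _ => rfl
  have hs := Ideal.Quotient.mk_surjective (I := J)
  have hmax : ∀ a b, w (a + b) ≤ max (w a) (w b) := fun a b => by
    obtain ⟨x, rfl⟩ := hs a
    obtain ⟨y, rfl⟩ := hs b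
    exact hadd x y
  have hw0 : ∀ a, 0 ≤ w a := fun a => by
    obtain ⟨x, rfl⟩ := hs a
    exact h0 x
  let _ := Ideal.Quotient.field J
  let ab : AbsoluteValue (M ⧸ J) ℝ :=
    { toFun := w
      map_mul' := fun a b => by
        obtain ⟨x, rfl⟩ := hs a
        obtain ⟨y, rfl⟩ := hs b
        exact hmul x y
      nonneg' := hw0
      eq_zero' := fun a => by
        obtain ⟨x, rfl⟩ := hs a
        exact (Ideal.Quotient.eq_zero_iff_mem (I := J)).symm
      add_le' := fun a b => (hmax a b).trans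
        (max_le (le_add_of_nonneg_right (hw0 b)) (le_add_of_nonneg_left (hw0 a))) }
  let F : NontriviallyNormedField (M ⧸ J) :=
    { ab.toNormedField with non_trivial := ⟨Ideal.Quotient.mk J z, hz1⟩ }
  exact ⟨M ⧸ J, F, IsUltrametricDist.isUltrametricDist_of_forall_norm_add_le_max_norm hmax,
    Ideal.Quotient.mk J, hs, hw⟩

/-- the size of a term on the scale `N`. -/
noncomputable def UF_f (N : ℕ → ℕ) (x : ℕ → ℂ) (n : ℕ) : ℝ := ‖x n‖ ^ (Real.log (N n))⁻¹

section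

variable {N : ℕ → ℕ}

theorem UF_nonneg (x : ℕ → ℂ) (n : ℕ) : 0 ≤ UF_f N x n := Real.rpow_nonneg (norm_nonneg _) _

theorem UF_mul (x y : ℕ → ℂ) (n : ℕ) : UF_f N (x * y) n = UF_f N x n * UF_f N y n := by
  rw [UF_f, Pi.mul_apply, norm_mul, Real.mul_rpow (norm_nonneg _) (norm_nonneg _)]
  rfl

theorem UF_add (x y : ℕ → ℂ) (n : ℕ) : UF_f N (x + y) n ≤
    2 ^ (Real.log (N n))⁻¹ * max (UF_f N x n) (UF_f N y n) := by
  have h : 0 ≤ (Real.log (N n))⁻¹ := inv_nonneg.2 (Real.log_natCast_nonneg _)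
  have h1 : ‖(x + y) n‖ ≤ 2 * max ‖x n‖ ‖y n‖ := by
    linarith [norm_add_le (x n) (y n), le_max_left ‖x n‖ ‖y n‖, le_max_right ‖x n‖ ‖y n‖,
      show ‖(x + y) n‖ = ‖x n + y n‖ from rfl]
  refine (Real.rpow_le_rpow (norm_nonneg _) h1 h).trans ?_
  rw [Real.mul_rpow zero_le_two (by positivity)]
  refine mul_le_mul_of_nonneg_left ?_ (by positivity)
  rcases le_total ‖x n‖ ‖y n‖ with h2 | h2
  · rw [max_eq_right h2]; exact le_max_right _ _
  · rw [max_eq_left h2]; exact le_max_left _ _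

theorem UF_iff {n : ℕ} (h : 0 < Real.log (N n)) (x : ℕ → ℂ) (t : ℝ) :
    ‖x n‖ ≤ (N n : ℝ) ^ t ↔ UF_f N x n ≤ Real.exp t := by
  have h1 : (0 : ℝ) < N n := by
    rcases (N n).eq_zero_or_pos with h0 | h0
    · simp [h0] at h
    · exact_mod_cast h0
  rw [UF_f, Real.rpow_inv_le_iff_of_pos (norm_nonneg _) (Real.exp_pos t).le h, ← Real.exp_mul,
    Real.rpow_def_of_pos h1, mul_comm]

variable (hN : Tendsto N atTop atTop)
include hN

theorem UF_log : Tendsto (fun n => Real.log (N n)) (hyperfilter ℕ) atTop :=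
  (Real.tendsto_log_atTop.comp (tendsto_natCast_atTop_atTop.comp hN)).mono_left
    Nat.hyperfilter_le_atTop

theorem UF_two : Tendsto (fun n => (2 : ℝ) ^ (Real.log (N n))⁻¹) (hyperfilter ℕ) (𝓝 1) := by
  simpa using (tendsto_const_nhds (x := (2 : ℝ))).rpow (UF_log hN).inv_tendsto_atTop
    (.inl two_ne_zero)

theorem UF_ev (x : ℕ → ℂ) (t : ℝ) : (∀ᶠ n in hyperfilter ℕ, ‖x n‖ ≤ (N n : ℝ) ^ t) ↔
    ∀ᶠ n in hyperfilter ℕ, UF_f N x n ≤ Real.exp t :=
  eventually_congr (((UF_log hN).eventually_gt_atTop 0).mono fun _ h => UF_iff h x t)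

theorem UF_zero {x : ℕ → ℂ} (h : ∀ᶠ n in hyperfilter ℕ, x n = 0) :
    Tendsto (UF_f N x) (hyperfilter ℕ) (𝓝 0) := by
  refine tendsto_const_nhds.congr' ?_
  filter_upwards [h, (UF_log hN).eventually_gt_atTop 0] with n h1 h2
  rw [UF_f, h1, norm_zero, Real.zero_rpow (inv_pos.2 h2).ne']

/-- the moderate sequences. -/
def UF_M : Subring (ℕ → ℂ) where
  carrier := {x | ∃ r, Tendsto (UF_f N x) (hyperfilter ℕ) (𝓝 r)}
  mul_mem' := fun ⟨r, hr⟩ ⟨s, hs⟩ => ⟨r * s, (hr.mul hs).congr fun n => (UF_mul _ _ n).symm⟩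
  one_mem' := ⟨1, tendsto_const_nhds.congr fun n => by simp [UF_f]⟩
  add_mem' := fun {x y} ⟨r, hr⟩ ⟨s, hs⟩ => by
    have h := ((UF_two hN).mul (hr.max hs)).eventually (gt_mem_nhds (lt_add_one _))
    obtain ⟨a, -, ha⟩ := (isCompact_Icc (a := (0 : ℝ)) (b := 1 * max r s + 1)).ultrafilter_le_nhds'
      ((hyperfilter ℕ).map (UF_f N (x + y)))
      (h.mono fun n hn => ⟨UF_nonneg _ n, (UF_add x y n).trans hn.le⟩)
    exact ⟨a, ha⟩
  zero_mem' := ⟨0, UF_zero hN (.of_forall fun _ => rfl)⟩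
  neg_mem' := fun ⟨r, hr⟩ => ⟨r, hr.congr fun n => by simp [UF_f]⟩

end

theorem sUF : SUF := by
  intro N hN
  choose v hv using fun x : UF_M hN => x.2
  have hNm : Tendsto (UF_f N fun n => (N n : ℂ)) (hyperfilter ℕ) (𝓝 (Real.exp 1)) := by
    refine tendsto_const_nhds.congr' ?_
    filter_upwards [(UF_log hN).eventually_gt_atTop 0] with n h
    have h1 : (0 : ℝ) < N n := by
      rcases (N n).eq_zero_or_pos with h0 | h0
      · simp [h0] at h
      · exact_mod_cast h0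
    rw [UF_f, Complex.norm_natCast, Real.rpow_def_of_pos h1, mul_inv_cancel₀ h.ne']
  obtain ⟨K, i1, i2, cl, hs, hc⟩ := UF_field (UF_M hN) v
    (fun x => ge_of_tendsto' (hv x) (UF_nonneg _))
    (fun x y => tendsto_nhds_unique (hv (x * y))
      (((hv x).mul (hv y)).congr fun n => (UF_mul _ _ n).symm))
    (fun x y => by
      simpa using le_of_tendsto_of_tendsto' (hv (x + y)) ((UF_two hN).mul ((hv x).max (hv y)))
        (UF_add x.1 y.1))
    (tendsto_nhds_unique (hv 0) (UF_zero hN (.of_forall fun _ => rfl)))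
    (fun x hx => by
      refine ⟨⟨x.1⁻¹, (v x)⁻¹, ((hv x).inv₀ hx).congr fun n => ?_⟩,
        tendsto_nhds_unique (hv _) (UF_zero hN ?_)⟩
      · rw [UF_f, UF_f, Pi.inv_apply, norm_inv, Real.inv_rpow (norm_nonneg _)]
      · filter_upwards [(hv x).eventually_ne hx, (UF_log hN).eventually_gt_atTop 0] with n h1 h2
        have : x.1 n ≠ 0 := fun h => h1 (by
          rw [UF_f, h, norm_zero, Real.zero_rpow (inv_pos.2 h2).ne'])
        change 1 - (x.1 n)⁻¹ * x.1 n = 0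
        rw [inv_mul_cancel₀ this, sub_self])
    ⟨⟨_, _, hNm⟩, (tendsto_nhds_unique (hv ⟨_, _, hNm⟩) hNm).symm ▸ Real.one_lt_exp_iff.2 one_pos⟩
  refine ⟨K, i1, i2, UF_M hN, cl, fun x => ⟨fun ⟨r, hr⟩ => ?_, fun ⟨C, hC⟩ => ?_⟩,
    fun x t h => ?_, fun x t h => ?_, hs⟩
  · obtain ⟨C, hC⟩ := exists_nat_gt r
    refine ⟨C, ?_⟩
    simp only [← Real.rpow_natCast]
    exact (UF_ev hN x C).2 ((hr.eventually (gt_mem_nhds hC)).mono fun n hn =>
      hn.le.trans (by linarith [Real.add_one_le_exp (C : ℝ)]))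
  · simp only [← Real.rpow_natCast] at hC
    obtain ⟨a, -, ha⟩ := (isCompact_Icc (a := (0 : ℝ)) (b := Real.exp C)).ultrafilter_le_nhds'
      ((hyperfilter ℕ).map (UF_f N x))
      (((UF_ev hN x C).1 hC).mono fun n hn => ⟨UF_nonneg _ n, hn⟩)
    exact ⟨a, ha⟩
  · rw [hc]
    exact le_of_tendsto (hv x) ((UF_ev hN x.1 t).1 h)
  · rw [hc] at h
    exact (UF_ev hN x.1 t).2 (((hv x).eventually (gt_mem_nhds h)).mono fun n hn => hn.le)

end Pool.Agent.MP_c1891a_nt.G43
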